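import Mathlib

/-!
# MP_bd8d3e_al, Q2: a countably categorical Jordan nilring that is not solvable (characteristic two)

The ring is `F_2^3` with the cross product. It is commutative, all squares are zero, so it is a Jordan
nilring, it is finite, so its complete theory is countably categorical, and it is equal to its derived
ring. This uses that the definition of Jordan rings in the question has no condition on the characteristic.
-/

set_option autoImplicit false

namespace Pool.Agent.Results.MP_bd8d3e_al.JordanCharTwo

/-- The language with the symbols `0`, `-`, `+`, `*` (the same as in the frozen statements of Q1). -/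
abbrev Lg : FirstOrder.Language :=
  FirstOrder.Language.mk (fun n : ℕ => Fin (if n = 2 then 2 else if n ≤ 1 then 1 else 0)) (fun _ : ℕ => Empty)

/-- A nonassociative ring as a structure in the language `Lg`. -/
def str (A : Type) [NonUnitalNonAssocRing A] : Lg.Structure A :=
  { funMap := fun {n} i x =>
      if n = 2 ∧ Fin.val i = 1 then (List.ofFn x).headD 0 * (List.ofFn x).getLastD 0
      else if n = 1 then -(∑ j, x j) else ∑ j, x j,
    RelMap := fun {n} r _ => Empty.elim r }

/-- The derived powers: `A^(0) = A`, and `A^(k+1)` is the additive subgroup generated by the products of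
two elements of `A^(k)`. -/
def derivedPower (A : Type) [NonUnitalNonAssocRing A] : ℕ → AddSubgroup A
  | 0 => ⊤
  | k + 1 => AddSubgroup.closure {z : A | ∃ u ∈ derivedPower A k, ∃ v ∈ derivedPower A k, u * v = z}

/-- Jordan rings, as in the question. -/
def IsJordanRing (A : Type) [NonUnitalNonAssocRing A] : Prop :=
  (∀ x y : A, x * y = y * x) ∧ ∀ x y : A, ((x * x) * y) * x = (x * x) * (y * x)

/-- `F_2^3` -/
structure V where
  a : ZMod 2
  b : ZMod 2
  c : ZMod 2
deriving DecidableEq, Fintype

instance : Zero V := ⟨⟨0, 0, 0⟩⟩
instance : Add V := ⟨fun x y => ⟨x.a + y.a, x.b + y.b, x.c + y.c⟩⟩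
instance : Neg V := ⟨fun x => x⟩
instance : Mul V := ⟨fun x y => ⟨x.b * y.c + x.c * y.b, x.c * y.a + x.a * y.c, x.a * y.b + x.b * y.a⟩⟩

instance : NonUnitalNonAssocRing V where
  add_assoc := by decide
  zero_add := by decide
  add_zero := by decide
  nsmul := nsmulRec
  zsmul := zsmulRec
  neg_add_cancel := by decide
  add_comm := by decide
  left_distrib := by decide
  right_distrib := by decide
  zero_mul := by decide
  mul_zero := by decide

/-- There is a (finite) Jordan nilring with countably categorical complete theory which is not solvable;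
all its derived powers are equal to the whole ring, which is not zero, and all squares are zero. -/
theorem result : ∃ (A : Type) (_ : NonUnitalNonAssocRing A), Finite A ∧ IsJordanRing A ∧
    (∀ x : A, x * x = 0) ∧
    (letI := str A; Cardinal.Categorical Cardinal.aleph0.{0} (FirstOrder.Language.completeTheory Lg A)) ∧
    ∀ k : ℕ, derivedPower A k = ⊤ ∧ derivedPower A k ≠ ⊥ := by
  have htop : ∀ k : ℕ, derivedPower V k = ⊤ := by
    intro k
    induction k with
    | zero => rfl
    | succ k ih =>
      rw [eq_top_iff]
      have key : ∀ x : V, ∃ u v u' v' u'' v'' : V, x = u * v + u' * v' + u'' * v'' := by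
        intro x
        refine ⟨⟨0, x.a, 0⟩, ⟨0, 0, 1⟩, ⟨0, 0, x.b⟩, ⟨1, 0, 0⟩, ⟨x.c, 0, 0⟩, ⟨0, 1, 0⟩, ?_⟩
        revert x
        decide
      intro x _
      obtain ⟨u, v, u', v', u'', v'', h⟩ := key x
      rw [h]
      have hm : ∀ p q : V, p * q ∈ derivedPower V (k + 1) := by
        intro p q
        refine AddSubgroup.subset_closure ⟨p, ?_, q, ?_, rfl⟩
        · rw [ih]; exact AddSubgroup.mem_top p
        · rw [ih]; exact AddSubgroup.mem_top q
      exact add_mem (add_mem (hm _ _) (hm _ _)) (hm _ _)
  refine ⟨V, inferInstance, inferInstance, ⟨by decide, by decide⟩, by decide, ?_, fun k => ⟨htop k, ?_⟩⟩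
  · letI := str V
    intro M N hM _
    exfalso
    have h1 : M ⊨ FirstOrder.Language.completeTheory Lg V := M.is_model
    have h2 : (FirstOrder.Language.Sentence.cardGe Lg 9).not ∈ FirstOrder.Language.completeTheory Lg V := by
      rw [FirstOrder.Language.mem_completeTheory, FirstOrder.Language.Sentence.realize_not,
        FirstOrder.Language.Sentence.realize_cardGe]
      have h3 : Cardinal.mk V = 8 := by
        rw [Cardinal.mk_fintype]
        have : Fintype.card V = 8 := by decide
        rw [this]; rfl
      rw [h3]
      norm_cast
    have h4 := h1.realize_of_mem _ h2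
    rw [FirstOrder.Language.Sentence.realize_not, FirstOrder.Language.Sentence.realize_cardGe, hM] at h4
    exact h4 (Cardinal.natCast_le_aleph0)
  · rw [htop k]
    intro h
    have h5 : (⟨1, 0, 0⟩ : V) ∈ (⊥ : AddSubgroup V) := by rw [← h]; exact AddSubgroup.mem_top _
    rw [AddSubgroup.mem_bot] at h5
    revert h5
    decide

end Pool.Agent.Results.MP_bd8d3e_al.JordanCharTwo
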